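import Pool.Agent.H32.GenSymIff
import Pool.Agent.HankelPerm.HankelIff

/-!
Generic, symmetric and Hankel matrices in odd characteristic: the permanental ideal `P_t(X)` is
prime iff `t = m = n`.
-/

namespace Pool.Agent.Results.MP_9bc296_ag.AllTypes

open Pool.Agent.H32 Pool.Agent.HankelPerm

theorem result (k : Type*) [Field k] (h2 : (2 : k) ≠ 0) :
    (∀ m n t : ℕ, 2 ≤ t → t ≤ m → t ≤ n →
      ((permIdeal t (genericMatrix k m n)).IsPrime ↔ t = m ∧ m = n)) ∧
    (∀ n t : ℕ, 2 ≤ t → t ≤ n → ((permIdeal t (symmetricMatrix k n)).IsPrime ↔ t = n)) ∧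
    (∀ m n t : ℕ, 2 ≤ t → t ≤ m → t ≤ n →
      ((permIdeal t (hankelMatrix k m n)).IsPrime ↔ t = m ∧ m = n)) :=
  ⟨fun _ _ _ ht htm htn => generic_iff h2 ht htm htn, fun _ _ ht htn => symmetric_iff h2 ht htn,
    fun _ _ _ ht htm htn => hankel_iff h2 ht htm htn⟩

end Pool.Agent.Results.MP_9bc296_ag.AllTypes
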